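import Pool.Agent.Lib.MP_04668c_co.E.Base

/-!
Module GENC.
-/

set_option autoImplicit false

namespace Pool.Agent.Lib.MP_04668c_co.E.H29

open Finset Classical Module
open Pool.Agent.Lib.MP_04668c_co

theorem finite_quad (α β γ : ℝ) (h : α ≠ 0 ∨ β ≠ 0) :
    {τ : ℝ | α * τ ^ 2 + β * τ + γ = 0}.Finite := by
  set P : Polynomial ℝ := Polynomial.C α * Polynomial.X ^ 2 + Polynomial.C β * Polynomial.X +
    Polynomial.C γ with hP
  have hev : ∀ τ, P.eval τ = α * τ ^ 2 + β * τ + γ := by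
    intro τ
    simp [hP]
  have hP0 : P ≠ 0 := by
    intro h0
    have e0 := hev 0
    have e1 := hev 1
    have e2 := hev (-1)
    rw [h0, Polynomial.eval_zero] at e0 e1 e2
    rcases h with h | h
    · apply h
      linarith
    · apply h
      linarith
  refine (P.roots.toFinset.finite_toSet).subset ?_
  intro τ hτ
  rw [Finset.mem_coe, Multiset.mem_toFinset, Polynomial.mem_roots hP0, Polynomial.IsRoot.def, hev]
  exact hτ

theorem finite_lin (β γ : ℝ) (h : β ≠ 0) : {τ : ℝ | β * τ + γ = 0}.Finite := by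
  have := finite_quad 0 β γ (Or.inr h)
  simpa using this

theorem genc : GencStatement := by
  intro V X _ _ B b idx j a s hnum
  set bs : X → V → ℝ × ℝ := fun x v => (Pi.single (j x) (e2 (a x)) : V → ℝ × ℝ) v with hbs
  have hq : ∀ (τ : ℝ) (i : ℕ) (x : X) (v : V), qs idx j a τ i x v =
      bs x v + τ • shp ((i : ℝ) + 2) (idx x v) := fun _ _ _ _ => rfl
  have hT : ∀ i : ℕ, (1 : ℝ) < (i : ℝ) + 2 := fun i => by
    have : (0 : ℝ) ≤ i := Nat.cast_nonneg i
    linarith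
  refine ⟨?_, ?_⟩
  · -- injectivity
    have key : ∀ (r : Fin s × X × V × V), {τ : ℝ | r.2.2.1 ∈ B r.2.1 ∧ r.2.2.2 ∈ B r.2.1 ∧
        r.2.2.1 ≠ r.2.2.2 ∧ qs idx j a τ r.1.val r.2.1 r.2.2.1 =
          qs idx j a τ r.1.val r.2.1 r.2.2.2}.Finite := by
      rintro ⟨i, x, u, v⟩
      by_cases hu : u ∈ B x ∧ v ∈ B x ∧ u ≠ v
      · obtain ⟨hu, hv, huv⟩ := hu
        have hβ : (shp ((i.val : ℝ) + 2) (idx x u)).1 - (shp ((i.val : ℝ) + 2) (idx x v)).1 ≠ 0 :=
          fun h => huv ((hnum x).1 u hu v hv (shp_inj _ (hT i.val) (by linarith)))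
        refine (finite_lin _ ((bs x u).1 - (bs x v).1) hβ).subset ?_
        rintro τ ⟨-, -, -, h⟩
        have h1 := congrArg Prod.fst h
        rw [hq, hq, Prod.fst_add, Prod.fst_add, Prod.smul_fst, Prod.smul_fst, smul_eq_mul,
          smul_eq_mul] at h1
        rw [Set.mem_ofPred_eq]
        linarith
      · convert Set.finite_empty
        ext τ
        simp only [Set.mem_ofPred_eq, Set.mem_empty_iff_false, iff_false]
        rintro ⟨h1, h2, h3, -⟩
        exact hu ⟨h1, h2, h3⟩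
    refine (Set.finite_iUnion key).subset ?_
    intro τ hτ
    simp only [Set.mem_ofPred_eq, not_forall] at hτ
    obtain ⟨i, x, u, v, hu, hv, huv, h⟩ := hτ
    exact Set.mem_iUnion.2 ⟨(i, x, u, v), hu, hv, huv, not_not.1 h⟩
  · have key : ∀ (r : Fin s × X × V × V × V), {τ : ℝ | r.2.2.1 ∈ B r.2.1 ∧ r.2.2.2.1 ∈ B r.2.1 ∧
        r.2.2.2.2 ∈ B r.2.1 ∧ r.2.2.1 ≠ r.2.2.2.1 ∧ r.2.2.2.2 ≠ r.2.2.1 ∧
        r.2.2.2.2 ≠ r.2.2.2.1 ∧
        (qs idx j a τ r.1.val r.2.1 r.2.2.1 - qs idx j a τ r.1.val r.2.1 r.2.2.2.1).1 *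
          ((qs idx j a τ r.1.val r.2.1 r.2.2.2.2).2 - (qs idx j a τ r.1.val r.2.1 r.2.2.1).2) -
        (qs idx j a τ r.1.val r.2.1 r.2.2.1 - qs idx j a τ r.1.val r.2.1 r.2.2.2.1).2 *
          ((qs idx j a τ r.1.val r.2.1 r.2.2.2.2).1 -
            (qs idx j a τ r.1.val r.2.1 r.2.2.1).1) = 0}.Finite := by
      rintro ⟨i, x, u, v, w⟩
      by_cases hu : u ∈ B x ∧ v ∈ B x ∧ w ∈ B x ∧ u ≠ v ∧ w ≠ u ∧ w ≠ v
      · obtain ⟨hu, hv, hw, huv, hwu, hwv⟩ := hu
        set S : ℕ → ℝ × ℝ := fun m => shp ((i.val : ℝ) + 2) m with hS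
        have hα := shp_gen ((i.val : ℝ) + 2) (hT i.val) (j := idx x u) (k := idx x v)
          (l := idx x w) (fun h => huv ((hnum x).1 u hu v hv h))
          (fun h => hwu ((hnum x).1 w hw u hu h)) (fun h => hwv ((hnum x).1 w hw v hv h))
        refine (finite_quad _
          (((bs x u).1 - (bs x v).1) * ((S (idx x w)).2 - (S (idx x u)).2) +
            ((S (idx x u)).1 - (S (idx x v)).1) * ((bs x w).2 - (bs x u).2) -
            ((bs x u).2 - (bs x v).2) * ((S (idx x w)).1 - (S (idx x u)).1) -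
            ((S (idx x u)).2 - (S (idx x v)).2) * ((bs x w).1 - (bs x u).1))
          (((bs x u).1 - (bs x v).1) * ((bs x w).2 - (bs x u).2) -
            ((bs x u).2 - (bs x v).2) * ((bs x w).1 - (bs x u).1)) (Or.inl hα)).subset ?_
        rintro τ ⟨-, -, -, -, -, -, h⟩
        rw [Set.mem_ofPred_eq]
        simp only [hq, Prod.fst_add, Prod.snd_add, Prod.fst_sub, Prod.snd_sub, Prod.smul_fst,
          Prod.smul_snd, smul_eq_mul, hS] at h ⊢
        linear_combination h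
      · convert Set.finite_empty
        ext τ
        simp only [Set.mem_ofPred_eq, Set.mem_empty_iff_false, iff_false]
        rintro ⟨h1, h2, h3, h4, h5, h6, -⟩
        exact hu ⟨h1, h2, h3, h4, h5, h6⟩
    refine (Set.finite_iUnion key).subset ?_
    intro τ hτ
    simp only [Set.mem_ofPred_eq, not_forall] at hτ
    obtain ⟨i, x, u, v, w, hu, hv, hw, huv, hwu, hwv, h⟩ := hτ
    exact Set.mem_iUnion.2 ⟨(i, x, u, v, w), hu, hv, hw, huv, hwu, hwv, not_not.1 h⟩

end Pool.Agent.Lib.MP_04668c_co.E.H29
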