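import Pool.Agent.Lib.MP_04668c_co.E.Base

/-!
Module INJP.
-/

set_option autoImplicit false

namespace Pool.Agent.Lib.MP_04668c_co.E.H29

open Finset Classical Module
open Pool.Agent.Lib.MP_04668c_co

theorem injp : InjpStatement := by
  intro M N _ _ _ _ _ _ A₀ A₁ hA
  obtain ⟨Bm, hB⟩ := A₀.exists_leftInverse_of_injective (LinearMap.ker_eq_bot.2 hA)
  set b := Module.finBasis ℝ M with hb
  set T := LinearMap.toMatrix b b (Bm ∘ₗ A₁) with hT
  set P : Polynomial ℝ := Matrix.det ((1 : Matrix _ _ (Polynomial ℝ)) +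
    (Polynomial.X : Polynomial ℝ) • T.map Polynomial.C) with hP
  have hev : ∀ t, P.eval t = LinearMap.det (LinearMap.id + t • (Bm ∘ₗ A₁)) := by
    intro t
    rw [← LinearMap.det_toMatrix b, map_add, map_smul, LinearMap.toMatrix_id, ← hT, hP,
      ← Polynomial.coe_evalRingHom, RingHom.map_det]
    congr 1
    ext i j
    simp [Matrix.one_apply, apply_ite]
    exact mul_comm _ _
  have hP0 : P ≠ 0 := by
    intro h
    have h1 := hev 0
    rw [h] at h1
    simp at h1
  refine (P.roots.toFinset.finite_toSet).subset ?_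
  intro t ht
  rw [Finset.mem_coe, Multiset.mem_toFinset, Polynomial.mem_roots hP0, Polynomial.IsRoot.def, hev]
  by_contra hdet
  apply ht
  have hu : IsUnit (LinearMap.det (LinearMap.id + t • (Bm ∘ₗ A₁))) := isUnit_iff_ne_zero.2 hdet
  have hinj := (LinearEquiv.ofIsUnitDet (f := LinearMap.id + t • (Bm ∘ₗ A₁)) (v := b) (v' := b)
    (by rw [LinearMap.det_toMatrix]; exact hu)).injective
  intro x y hxy
  apply hinj
  have h2 : ∀ z, (LinearMap.id + t • (Bm ∘ₗ A₁) : M →ₗ[ℝ] M) z = Bm ((A₀ + t • A₁) z) := by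
    intro z
    have h3 := LinearMap.congr_fun hB z
    simp only [LinearMap.comp_apply, LinearMap.id_apply] at h3
    simp only [LinearMap.add_apply, LinearMap.smul_apply, LinearMap.comp_apply, map_add, map_smul,
      LinearMap.id_apply, h3]
  rw [LinearEquiv.ofIsUnitDet_apply, LinearEquiv.ofIsUnitDet_apply, h2, h2, hxy]

end Pool.Agent.Lib.MP_04668c_co.E.H29
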