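import Pool.Agent.Lib.MP_04668c_co.E.Base

/-!
Module OPENC.
-/

set_option autoImplicit false

namespace Pool.Agent.Lib.MP_04668c_co.E.H29

open Finset Classical Module
open Pool.Agent.Lib.MP_04668c_co

section ip

variable {V : Type} [Fintype V]

theorem ip_def (p F : V → ℝ × ℝ) : ip p F = ∑ v, ((F v).1 * (p v).1 + (F v).2 * (p v).2) := rfl

theorem ip_add_smul (p p' F : V → ℝ × ℝ) (τ : ℝ) :
    ip (fun v => p v + τ • p' v) F = ip p F + τ * ip p' F := by
  rw [ip_def, ip_def, ip_def, mul_sum, ← sum_add_distrib]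
  refine sum_congr rfl fun v _ => ?_
  simp only [Prod.fst_add, Prod.snd_add, Prod.smul_fst, Prod.smul_snd, smul_eq_mul]
  ring

end ip

theorem openc (hinjp : InjpStatement) : OpencStatement := by
  intro V X _ _ B idx j a s hI
  -- for one colouring
  have key : ∀ c : X → Fin s,
      {τ : ℝ | ¬ Indep B (fun x => qs idx j a τ (c x).val x)}.Finite := by
    intro c
    set base : X → V → ℝ × ℝ := fun x => (Pi.single (j x) (e2 (a x)) : V → ℝ × ℝ) with hbase
    set sh : X → V → ℝ × ℝ := fun x v => shp (((c x).val : ℝ) + 2) (idx x v) with hsh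
    set A₀ : famK B (univ : Finset X) →ₗ[ℝ] (V → ℝ × ℝ) × (X → ℝ) :=
      (LinearMap.prod sumMap (LinearMap.pi (fun x => (ip (base x)).comp (LinearMap.proj x)))).comp
        (famK B univ).subtype with hA₀
    set A₁ : famK B (univ : Finset X) →ₗ[ℝ] (V → ℝ × ℝ) × (X → ℝ) :=
      (LinearMap.prod 0 (LinearMap.pi (fun x => (ip (sh x)).comp (LinearMap.proj x)))).comp
        (famK B univ).subtype with hA₁
    have hval : ∀ (τ : ℝ) (Φ : famK B (univ : Finset X)), (A₀ + τ • A₁) Φ =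
        (sumMap (Φ : X → V → ℝ × ℝ), fun x => ip (qs idx j a τ (c x).val x) ((Φ : X → V → ℝ × ℝ) x)) := by
      intro τ Φ
      have h1 : ∀ x, ip (qs idx j a τ (c x).val x) ((Φ : X → V → ℝ × ℝ) x) =
          ip (base x) ((Φ : X → V → ℝ × ℝ) x) + τ * ip (sh x) ((Φ : X → V → ℝ × ℝ) x) := by
        intro x
        rw [← ip_add_smul]
        rfl
      refine Prod.ext ?_ ?_
      · simp [hA₀, hA₁]
      · funext x
        simp [hA₀, hA₁, h1]
    have hinj₀ : Function.Injective A₀ := by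
      rw [← LinearMap.ker_eq_bot, LinearMap.ker_eq_bot']
      intro Φ hΦ
      have h0 := hI (Φ : X → V → ℝ × ℝ) Φ.2 (fun x => congrFun (congrArg Prod.snd hΦ) x)
        (congrArg Prod.fst hΦ)
      exact Subtype.ext h0
    refine (hinjp _ _ A₀ A₁ hinj₀).subset ?_
    intro τ hτ hinj
    apply hτ
    intro Φ hΦ h1 h2
    have h3 := hval τ ⟨Φ, hΦ⟩
    have h4 : (A₀ + τ • A₁) ⟨Φ, hΦ⟩ = (A₀ + τ • A₁) 0 := by
      rw [h3, map_zero]
      refine Prod.ext h2 ?_
      funext x
      exact h1 x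
    exact congrArg Subtype.val (hinj h4)
  have hfin := Set.finite_iUnion key
  refine hfin.subset ?_
  intro τ hτ
  rw [Set.mem_setOf_eq, not_forall] at hτ
  obtain ⟨c, hc⟩ := hτ
  exact Set.mem_iUnion.2 ⟨c, hc⟩

end Pool.Agent.Lib.MP_04668c_co.E.H29
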